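import Pool.Agent.Helper65.GS.Small
import Pool.Agent.Helper65.GS.Cmp
import Pool.Agent.Helper65.GS.Bd
import Pool.Agent.Helper65.GS.Bdae
import Pool.Agent.Helper65.GS.Card
import Pool.Agent.Helper65.GS.Grow
import Pool.Agent.Helper65.GS.Jump
import Pool.Agent.Helper65.GS.Cof
import Pool.Agent.Helper65.GS.Lim
import Pool.Agent.Helper65.GS.Chain
import Pool.Agent.Helper65.GS.Main

/-!
# Cardinals as values of generic ultrapower embeddings of saturated filters

Let `W` be a nonprincipal `κ`-complete filter, saturated at the first uncountable cardinal, on a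
set `X` of the regular uncountable cardinality `κ`. If a condition `A` forces that the generic
embedding takes an ordinal `t` to a cardinal `l > t`, then either `t` is a cardinal of cofinality
`κ`, or there is `n ≤ t` of countable cofinality which is a limit of cardinals of cofinality `κ`
such that `A` forces that the generic embedding takes `n` to a cardinal larger than `n`.
-/

set_option autoImplicit false

open Cardinal Ordinal Set Filter

universe u

namespace Pool.Agent.Results.MP_60edf5_lc.CofinalityReduction

open Pool.Agent.Helper65.GS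

theorem result {X : Type u} (κ : Cardinal.{u}) (hreg : κ.IsRegular) (hunc : ℵ₀ < κ)
    (hX : #X = κ) (W : Filter X) (hW : CardinalInterFilter W κ) (_hnonprincipal : ∀ x, {x}ᶜ ∈ W)
    (hsat : Saturated W) (A : Set X) (hA : Pos W A) (t l : Ordinal.{u})
    (hf : Forces W A t l) (htl : t < l) (hl : IsCard l) :
    (IsCard t ∧ t.cof = κ) ∨
      ∃ n ≤ t, n.cof = ℵ₀ ∧ (∀ r < n, ∃ m, r < m ∧ m < n ∧ IsCard m ∧ m.cof = κ) ∧
        ∃ l', n < l' ∧ IsCard l' ∧ Forces W A n l' := by
  obtain ⟨f, hf⟩ := hf
  have hs : StSMALL.{u} := small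
  have hk : StCARD.{u} := card hs cmp
  have hg : StGROW.{u} := grow cmp bd
  have hb : StBDAE.{u} := bdae
  have hc : StCOF.{u} := cofi hb
  exact main hk hs (jump hs hk hg bd) (chain hs hc (lim hs hc)) κ W A t l f
    ⟨hreg, hunc, hX, hW, hsat, hA, hf⟩ htl hl

end Pool.Agent.Results.MP_60edf5_lc.CofinalityReduction
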