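import Pool.Agent.Helper27.RV.AsmL
import Pool.Agent.Helper41.RV.M_JOIN
import Pool.Agent.Helper6.RV.M_RST
import Pool.Agent.Helper29.RV.M_SELF
import Pool.Agent.Helper2.RV.M_SUBD
import Pool.Agent.Helper6.RV.M_EMP
import Pool.Agent.Helper54.RV.M_UND
import Pool.Agent.Helper2.RV.M_F1
import Pool.Agent.Helper10.RV.M_DC
import Pool.Agent.Helper14.RV.M_DM
import Pool.Agent.Helper81.RV.M_DW
import Pool.Agent.Helper29.RV.M_DIR
import Pool.Agent.Helper66.RV.M_COD
import Pool.Agent.Helper34.RV.M_DSM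
import Pool.Agent.Helper86.RV.M_KA
import Pool.Agent.Helper99.RV.M_NUL
import Pool.Agent.Helper41.RV.M_KV
import Pool.Agent.Helper42.RV.M_CVO
import Pool.Agent.Helper2.RV.M_NCT
import Pool.Agent.Helper13.RV.M_KM
import Pool.Agent.Helper81.RV.M_KEY
import Pool.Agent.Helper95.RV.M_WF
import Pool.Agent.Helper86.RV.M_TERM
import Pool.Agent.Helper86.RV.M_STA
import Pool.Agent.Helper9.RV.M_CVA
import Pool.Agent.Helper66.RV.M_CVB
import Pool.Agent.Helper28.RV.M_CVC
import Pool.Agent.Helper95.RV.M_CVD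
import Pool.Agent.Helper89.RV.M_CVE
import Pool.Agent.Helper6.RV.M_TN
import Pool.Agent.Helper2.RV.M_ATM
import Pool.Agent.Helper15.RV.M_FIN
import Pool.Agent.Helper6.RV.M_CUT
import Pool.Agent.Helper78.RV.M_SPT
import Pool.Agent.Helper66.RV.M_SEQ
import Pool.Agent.Helper14.RV.M_SPR
import Pool.Agent.Helper27.RV.M_SPC
import Pool.Agent.Helper27.RV.M_LMK
import Pool.Agent.Helper4.RV.M_LAM
import Pool.Agent.Helper64.RV.M_TKK
import Pool.Agent.Helper34.RV.M_GFN
import Pool.Agent.Helper95.RV.M_NCV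
import Pool.Agent.Helper28.RV.M_WY
import Pool.Agent.Helper11.RV.M_KNU
import Pool.Agent.Helper13.RV.M_LQ
import Pool.Agent.Helper89.RV.M_LCT
import Pool.Agent.Helper66.RV.M_LFI
import Pool.Agent.Helper65.GS.Small
import Pool.Agent.Helper60.VC.M_BND
import Pool.Agent.Helper48.VC.M_WI
import Pool.Agent.Helper62.VC.M_CNT
import Pool.Agent.Helper39.VC.M_ENU
import Pool.Agent.Helper90.VC.M_CAR
import Pool.Agent.Helper69.VC.M_COA
import Pool.Agent.Helper84.VC.M_CTA
import Pool.Agent.Helper69.VC.M_NEK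
import Pool.Agent.Helper36.VC.M_COB
import Pool.Agent.Helper24.VC.M_CTB
import Pool.Agent.Helper36.VC.M_PRI
import Pool.Agent.Helper72.VC.M_FC

/-!
# Cardinals as values of saturated generic ultrapower embeddings: the case `κ = 2 ^ ℵ₀`

Let `W` be a nonprincipal `κ`-complete filter, saturated at the first uncountable cardinal, on a
set `X` of the regular uncountable cardinality `κ`. If `κ` is the continuum, or more generally if
`2 ^ a ≤ κ` for all `a < κ`, then no condition forces that the generic embedding takes an ordinal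
`t` to a cardinal larger than `t`. For arbitrary `κ` this holds for all values above a bound `θ`
(for instance `2 ^ 2 ^ (< κ)`) if functions to countable sets are dominated by few functions.
-/

set_option autoImplicit false

open Cardinal Ordinal Set Filter

universe u

namespace Pool.Agent.Results.MP_60edf5_lc.ContinuumCase

open Pool.Agent.Helper65.GS Pool.Agent.Helper36.VC Pool.Agent.Helper27.RV

theorem result {X : Type u} (κ : Cardinal.{u}) (hreg : κ.IsRegular) (hunc : ℵ₀ < κ)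
    (hX : #X = κ) (W : Filter X) (hW : CardinalInterFilter W κ) (hnonprincipal : ∀ x, {x}ᶜ ∈ W)
    (hsat : Saturated W) (A : Set X) (hA : Pos W A) (t l : Ordinal.{u})
    (hf : Forces W A t l) (htl : t < l)
    (h : (2 : Cardinal.{u}) ^ ℵ₀ = κ ∨ (∀ a < κ, (2 : Cardinal.{u}) ^ a ≤ κ) ∨
      ((∀ L D : Type u, #L < κ → #D < κ → DomLT κ L D) ∧ ∃ θ : Cardinal.{u}, θ ^ κ ≤ θ ∧
        (∀ a < κ, (2 : Cardinal.{u}) ^ ((2 : Cardinal.{u}) ^ a) ≤ θ) ∧ θ < l.card)) :
    ¬ IsCard l := by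
  have hJOIN : StJOIN.{u} := Pool.Agent.Helper41.RV.pJOIN
  have hRST : StRST.{u} := Pool.Agent.Helper6.RV.pRST
  have hSELF : StSELF.{u} := Pool.Agent.Helper29.RV.pSELF hRST
  have hSUBD : StSUBD.{u} := Pool.Agent.Helper2.RV.pSUBD hRST
  have hEMP : StEMP.{u} := Pool.Agent.Helper6.RV.pEMP
  have hUND : StUND.{u} := Pool.Agent.Helper54.RV.pUND hSUBD
  have hF1 : StF1.{u} := Pool.Agent.Helper2.RV.pF1
  have hDC : StDC.{u} := Pool.Agent.Helper10.RV.pDC hSELF
  have hDM : StDM.{u} := Pool.Agent.Helper14.RV.pDM hJOIN hSELF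
  have hDW : StDW.{u} := Pool.Agent.Helper81.RV.pDW hJOIN
  have hDIR : StDIR.{u} := Pool.Agent.Helper29.RV.pDIR hJOIN hSELF
  have hCOD : StCOD.{u} := Pool.Agent.Helper66.RV.pCOD
  have hDSM : StDSM.{u} := Pool.Agent.Helper34.RV.pDSM
  have hKA : StKA.{u} := Pool.Agent.Helper86.RV.pKA hCOD hDIR
  have hNUL : StNUL.{u} := Pool.Agent.Helper99.RV.pNUL
  have hKV : StKV.{u} := Pool.Agent.Helper41.RV.pKV
  have hCVO : StCVO.{u} := Pool.Agent.Helper42.RV.pCVO
  have hNCT : StNCT.{u} := Pool.Agent.Helper2.RV.pNCT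
  have hKM : StKM.{u} := Pool.Agent.Helper13.RV.pKM hDSM hNUL hKV
  have hKEY : StKEY.{u} := Pool.Agent.Helper81.RV.pKEY hKA hKM hCVO hNCT hSELF hSUBD hUND
  have hWF : StWF.{u} := Pool.Agent.Helper95.RV.pWF
  have hTERM : StTERM.{u} := Pool.Agent.Helper86.RV.pTERM hWF
  have hSTA : StSTA.{u} := Pool.Agent.Helper86.RV.pSTA hJOIN
  have hCVA : StCVA.{u} := Pool.Agent.Helper9.RV.pCVA
  have hCVB : StCVB.{u} := Pool.Agent.Helper66.RV.pCVB
  have hCVC : StCVC.{u} := Pool.Agent.Helper28.RV.pCVC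
  have hCVD : StCVD.{u} := Pool.Agent.Helper95.RV.pCVD
  have hCVE : StCVE.{u} := Pool.Agent.Helper89.RV.pCVE
  have hTN : StTN.{u} := Pool.Agent.Helper6.RV.pTN hCVA hCVB hCVC hCVD
  have hATM : StATM.{u} := Pool.Agent.Helper2.RV.pATM
  have hFIN : StFIN.{u} := Pool.Agent.Helper15.RV.pFIN hSUBD hUND hEMP
  have hCUT : StCUT.{u} := Pool.Agent.Helper6.RV.pCUT
  have hSPT : StSPT.{u} := Pool.Agent.Helper78.RV.pSPT
  have hSEQ : StSEQ.{u} := Pool.Agent.Helper66.RV.pSEQ hSPT hCVE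
  have hSPR : StSPR.{u} := Pool.Agent.Helper14.RV.pSPR
  have hSPC : StSPC.{u} := Pool.Agent.Helper27.RV.SPC76.pSPC
  have hLMK : StLMK.{u} := Pool.Agent.Helper27.RV.pLMK
  have hLAM : StLAM.{u} := Pool.Agent.Helper4.RV.pLAM
  have hTKK : StTKK.{u} := Pool.Agent.Helper64.RV.pTKK
  have hGFN : StGFN.{u} := Pool.Agent.Helper34.RV.pGFN
  have hNCV : StNCV.{u} := Pool.Agent.Helper95.RV.pNCV
  have hWY : StWY.{u} := Pool.Agent.Helper28.RV.pWY
  have hKNU : StKNU.{u} := Pool.Agent.Helper11.RV.pKNU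
  have hLQ : StLQ.{u} := Pool.Agent.Helper13.RV.pLQ hWY hKNU
  have hLCT : StLCT.{u} := Pool.Agent.Helper89.RV.pLCT hDSM hKNU
  have hLFI : StLFI.{u} := Pool.Agent.Helper66.RV.pLFI hLQ hLCT
  have hR : StR.{u} := rgch (core hTN hATM hSTA hTERM hDC hF1 hDW hDM hKEY hSPT hFIN hCUT) hSEQ
  have hWI : StWI.{u} := Pool.Agent.Helper48.VC.pWI Pool.Agent.Helper60.VC.pBND
  have hMA : StMainA.{u} := mainA hWI (Pool.Agent.Helper90.VC.pCAR Pool.Agent.Helper39.VC.pENU)
    Pool.Agent.Helper69.VC.pCOA (Pool.Agent.Helper84.VC.pCTA Pool.Agent.Helper62.VC.pCNT)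
  have hMB : StMainB.{u} := mainB hWI Pool.Agent.Helper69.VC.pNEK pCOB
    (Pool.Agent.Helper24.VC.pCTB Pool.Agent.Helper62.VC.pCNT)
    Pool.Agent.Helper36.VC.PRI.pPRI Pool.Agent.Helper72.VC.pFC
  have hfull := fun hk => full hR hSPC hLMK hGFN hNCV hLFI hMA hMB Pool.Agent.Helper72.VC.pFC
    small hSPR hLAM κ hreg hunc hX W hW hnonprincipal hsat hk A hA t l hf htl
  rcases h with h2 | h2 | ⟨hDom, θ, hθ1, hθ2, hθl⟩
  · refine hfull fun a ha => ?_
    have h3 := Pool.Agent.Helper36.VC.PRI.pPRI κ W hreg hunc hX hW hsat hnonprincipal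
      (hA.mono (subset_univ A)) h2 a.ord (ord_lt_ord.2 ha)
    rwa [card_ord] at h3
  · exact hfull h2
  · intro hl
    exact absurd (above hR hSPC hLMK hGFN hNCV hLFI hMA hTKK small κ hreg hunc hX W hW
      hnonprincipal hsat A hA t l hf htl hl hDom θ hθ1 hθ2) (not_le.2 hθl)

end Pool.Agent.Results.MP_60edf5_lc.ContinuumCase
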