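import Pool.Agent.Helper36.VC.StMain
import Pool.Agent.Helper60.VC.M_BND
import Pool.Agent.Helper48.VC.M_WI
import Pool.Agent.Helper62.VC.M_CNT
import Pool.Agent.Helper69.VC.M_NEK
import Pool.Agent.Helper36.VC.M_COB
import Pool.Agent.Helper24.VC.M_CTB
import Pool.Agent.Helper36.VC.M_PRI
import Pool.Agent.Helper72.VC.M_FC

/-!
# Cardinals as values of saturated generic ultrapower embeddings: the value of `κ`

Let `W` be a nonprincipal `κ`-complete filter, saturated at the first uncountable cardinal, on a
set `X` of the regular uncountable cardinality `κ`. If a condition `A` forces that the value of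
`κ` under the generic embedding is a cardinal, then for stationarily many weakly inaccessible
`a < κ` there are no `κ` functions from `a` to `a` such that every function from `a` to `a` is
covered by fewer than `a` of them; in particular the continuum is not `κ`.
-/

set_option autoImplicit false

open Cardinal Ordinal Set Filter

universe u

namespace Pool.Agent.Results.MP_60edf5_lc.ContinuumValue

open Pool.Agent.Helper65.GS Pool.Agent.Helper36.VC

theorem result {X : Type u} (κ : Cardinal.{u}) (hreg : κ.IsRegular) (hunc : ℵ₀ < κ)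
    (hX : #X = κ) (W : Filter X) (hW : CardinalInterFilter W κ) (hnonprincipal : ∀ x, {x}ᶜ ∈ W)
    (hsat : Saturated W) (A : Set X) (hA : Pos W A) (l : Ordinal.{u})
    (hf : Forces W A κ.ord l) (hkl : κ.ord < l) (hl : IsCard l) :
    (∀ h : Ordinal.{u} → Ordinal.{u}, (∀ e < κ.ord, h e < κ.ord) →
      ∃ a < κ.ord, WInacc a ∧ (∀ e < a, h e < a) ∧ ¬ FunCov a κ.ord) ∧
    (2 : Cardinal.{u}) ^ ℵ₀ ≠ κ :=
  mainB (Pool.Agent.Helper48.VC.pWI Pool.Agent.Helper60.VC.pBND) Pool.Agent.Helper69.VC.pNEK
    pCOB (Pool.Agent.Helper24.VC.pCTB Pool.Agent.Helper62.VC.pCNT)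
    Pool.Agent.Helper36.VC.PRI.pPRI Pool.Agent.Helper72.VC.pFC
    κ hreg hunc hX W hW hnonprincipal hsat A hA l hf hkl hl

end Pool.Agent.Results.MP_60edf5_lc.ContinuumValue
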