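import Pool.Agent.Helper36.VC.StMain
import Pool.Agent.Helper60.VC.M_BND
import Pool.Agent.Helper48.VC.M_WI
import Pool.Agent.Helper62.VC.M_CNT
import Pool.Agent.Helper39.VC.M_ENU
import Pool.Agent.Helper90.VC.M_CAR
import Pool.Agent.Helper69.VC.M_COA
import Pool.Agent.Helper84.VC.M_CTA

/-!
# Cardinals as values of saturated generic ultrapower embeddings: the covering criterion

Let `W` be a nonprincipal `κ`-complete filter, saturated at the first uncountable cardinal, on a
set `X` of the regular uncountable cardinality `κ`. If a condition `A` forces that the generic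
embedding takes an ordinal `t > κ` to a cardinal `l > t`, then for stationarily many weakly
inaccessible cardinals `a < κ` there is `s < t` such that fewer than `t` subsets of `s` of size
at most `a` never suffice to cover every such subset by fewer than `a` of them.
-/

set_option autoImplicit false

open Cardinal Ordinal Set Filter

universe u

namespace Pool.Agent.Results.MP_60edf5_lc.CoveringCriterion

open Pool.Agent.Helper65.GS Pool.Agent.Helper36.VC

theorem result {X : Type u} (κ : Cardinal.{u}) (hreg : κ.IsRegular) (hunc : ℵ₀ < κ)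
    (hX : #X = κ) (W : Filter X) (hW : CardinalInterFilter W κ) (hnonprincipal : ∀ x, {x}ᶜ ∈ W)
    (hsat : Saturated W) (A : Set X) (hA : Pos W A) (t l : Ordinal.{u})
    (hf : Forces W A t l) (ht : κ.ord < t) (htl : t < l) (hl : IsCard l)
    (h : Ordinal.{u} → Ordinal.{u}) (hh : ∀ e < κ.ord, h e < κ.ord) :
    ∃ a < κ.ord, WInacc a ∧ (∀ e < a, h e < a) ∧ ∃ s < t, ¬ CovLT s a t :=
  mainA (Pool.Agent.Helper48.VC.pWI Pool.Agent.Helper60.VC.pBND)
    (Pool.Agent.Helper90.VC.pCAR Pool.Agent.Helper39.VC.pENU) Pool.Agent.Helper69.VC.pCOA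
    (Pool.Agent.Helper84.VC.pCTA Pool.Agent.Helper62.VC.pCNT)
    κ hreg hunc hX W hW hnonprincipal hsat A hA t l hf ht htl hl h hh

end Pool.Agent.Results.MP_60edf5_lc.CoveringCriterion
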